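import Pool.Agent.L7h34.BO.Stm

/-!
# Project BO, part BIG: an irreducible factor of large degree
-/

set_option autoImplicit false

namespace Pool.Agent.L7h15.BO

open Finset Polynomial Pool.Agent.H319B Pool.Agent.L7h58.BP Pool.Agent.L7h34.BO

/-- the bound of `two_factor_R` for `n = r q + 2` -/
theorem bound_le (r q : ℕ) (hr : 1 ≤ r) (hq : 1 ≤ q) :
    5 * Real.sqrt (((r * q + 2 : ℕ) : ℝ) / Real.log ((r * q + 2 : ℕ) : ℝ)) ≤ bd r q := by
  have hr1 : (1 : ℝ) ≤ r := by exact_mod_cast hr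
  have hq1 : (1 : ℝ) ≤ q := by exact_mod_cast hq
  have hl : 0 < Real.log ((q : ℝ) + 2) := Real.log_pos (by linarith)
  have h1 : (q : ℝ) + 2 ≤ ((r * q + 2 : ℕ) : ℝ) := by
    push_cast
    nlinarith
  have h2 : ((r * q + 2 : ℕ) : ℝ) ≤ r * ((q : ℝ) + 2) := by
    push_cast
    nlinarith
  have h3 : Real.log ((q : ℝ) + 2) ≤ Real.log ((r * q + 2 : ℕ) : ℝ) :=
    Real.log_le_log (by linarith) h1
  have h4 : ((r * q + 2 : ℕ) : ℝ) / Real.log ((r * q + 2 : ℕ) : ℝ) ≤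
      r * (((q : ℝ) + 2) / Real.log ((q : ℝ) + 2)) := by
    rw [← mul_div_assoc]
    exact div_le_div₀ (by positivity) h2 hl h3
  unfold bd
  rw [mul_assoc, ← Real.sqrt_mul (by linarith)]
  exact mul_le_mul_of_nonneg_left (Real.sqrt_le_sqrt h4) (by norm_num)

/-- factorizations into two factors: one of them has degree at most `r - 1` -/
theorem min_le (hS : S_SMALL) (r : ℕ) (hr : Odd r) (n₀ : ℕ)
    (hn₀ : ∀ n : ℕ, n₀ ≤ n → Odd n → ∀ g h : ℚ[X], g.Monic → h.Monic → g * h = Rn n →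
      (g.natDegree : ℝ) ≤ 5 * Real.sqrt (n / Real.log n) ∨
        (h.natDegree : ℝ) ≤ 5 * Real.sqrt (n / Real.log n))
    (q : ℕ) (hq : n₀ ≤ q) (hp : q.Prime) (h2 : 2 < q)
    (hb : bd r q < (orderOf (2 : ZMod q) : ℝ)) (f g : ℚ[X]) (hfg : Rn (r * q + 2) = f * g) :
    min f.natDegree g.natDegree ≤ r - 1 := by
  have hr1 : 1 ≤ r := hr.pos
  have hqo : Odd q := hp.odd_of_ne_two (by omega)
  have hno : Odd (r * q + 2) := (hr.mul hqo).add_even even_two
  have hrq : q ≤ r * q := Nat.le_mul_of_pos_left q hr1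
  obtain ⟨-, hm, -⟩ := Rn_spec (r * q + 2) (by omega) hno
  have hf0 : f ≠ 0 := by
    rintro rfl
    rw [zero_mul] at hfg
    exact hm.ne_zero hfg
  have hg0 : g ≠ 0 := by
    rintro rfl
    rw [mul_zero] at hfg
    exact hm.ne_zero hfg
  have hlc : f.leadingCoeff * g.leadingCoeff = 1 := by
    rw [← leadingCoeff_mul, ← hfg]
    exact hm
  have hlc' : f.leadingCoeff⁻¹ * g.leadingCoeff⁻¹ = 1 := by
    rw [← mul_inv, hlc, inv_one]
  have hprod : (f * C f.leadingCoeff⁻¹) * (g * C g.leadingCoeff⁻¹) = Rn (r * q + 2) := by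
    rw [hfg]
    calc (f * C f.leadingCoeff⁻¹) * (g * C g.leadingCoeff⁻¹) =
        f * g * C (f.leadingCoeff⁻¹ * g.leadingCoeff⁻¹) := by rw [C_mul]; ring
      _ = f * g := by rw [hlc', C_1, mul_one]
  have hsm : ∀ k : ℚ[X], k ∣ Rn (r * q + 2) →
      (k.natDegree : ℝ) ≤ 5 * Real.sqrt (((r * q + 2 : ℕ) : ℝ) / Real.log ((r * q + 2 : ℕ) : ℝ)) →
      k.natDegree ≤ r - 1 := by
    intro k hk hkd
    have h3 : (k.natDegree : ℝ) < (orderOf (2 : ZMod q) : ℝ) :=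
      (hkd.trans (bound_le r q hr1 (by omega))).trans_lt hb
    exact (hS r q hr hp h2 k hk (by exact_mod_cast h3)).1
  rcases hn₀ (r * q + 2) (by omega) hno _ _ (monic_mul_leadingCoeff_inv hf0)
    (monic_mul_leadingCoeff_inv hg0) hprod with h | h
  · rw [natDegree_mul_leadingCoeff_inv f hf0] at h
    exact (min_le_left _ _).trans (hsm f ⟨g, hfg⟩ h)
  · rw [natDegree_mul_leadingCoeff_inv g hg0] at h
    exact (min_le_right _ _).trans (hsm g ⟨f, by rw [hfg, mul_comm]⟩ h)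

theorem s_BIG (hS : S_SMALL) (hF : S_FAC) : S_BIG := by
  intro r hr
  obtain ⟨n₀, hn₀⟩ := two_factor_R
  refine ⟨n₀ + 5, fun q hq hp hb => ?_⟩
  have hr1 : 1 ≤ r := hr.pos
  have hqo : Odd q := hp.odd_of_ne_two (by omega)
  have hno : Odd (r * q + 2) := (hr.mul hqo).add_even even_two
  have hrq : q ≤ r * q := Nat.le_mul_of_pos_left q hr1
  have hrq5 : r * 5 ≤ r * q := Nat.mul_le_mul_left r (by omega)
  obtain ⟨-, hm, hd⟩ := Rn_spec (r * q + 2) (by omega) hno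
  obtain ⟨h, h1, h2, h3⟩ := hF (Rn (r * q + 2)) (r - 1) hm.ne_zero (by omega)
    (min_le hS r hr n₀ hn₀ q (by omega) hp (by omega) hb)
  refine ⟨h, h1, h2, ?_⟩
  rw [Nat.mul_sub, mul_one]
  omega

end Pool.Agent.L7h15.BO
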